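import Pool.Agent.K1H2.UB.Stm3

set_option autoImplicit false

open scoped ENNReal
open MeasureTheory ProbabilityTheory Filter
open Pool.Agent.K1H53.BI (V St children Ex Phi prob CondH top C_ABEL addp lau Sym Eqv)
open Pool.Agent.K1H2.BI (State Inst Dir arrive kids at' agg Crit Drawn event Inv X pick who raw)
open Pool.Agent.K1H2.UB

namespace Pool.Agent.K1H72.UB

theorem pick_lt (L : List V) (hL : L ≠ []) (u : ℝ) : pick L u < L.length := by
  have h := List.length_pos_iff.2 hL
  have h1 : pick L u ≤ L.length - 1 := min_le_right _ _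
  omega

/-- one event, in the other description -/
theorem phi_event (hA : C_ABEL) (ν : PMF ℕ) (G : Finset V → Prop) (T : ℕ) (s : State)
    (hT : s.t < T) (i : Inst) :
    Phi ν G (toSt T (event s i)) = Phi ν G ⟨(raw s i).1, (raw s i).2, T - 1 - s.t⟩ := by
  by_cases h : (raw s i).2 = []
  · have h1 : event s i = ⟨(raw s i).1, [0], s.t + 1⟩ := by
      unfold event
      rw [if_pos h]
    rw [h1]
    by_cases h2 : s.t + 1 < T
    · have h3 : toSt T ⟨(raw s i).1, [0], s.t + 1⟩ =
          lau ⟨(raw s i).1, (raw s i).2, T - 1 - s.t⟩ := by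
        unfold toSt lau
        rw [if_pos h2, h]
        simp only [St.mk.injEq, true_and]
        omega
      rw [h3]
      exact ((hA ν G).2.2 _ (by show 0 < T - 1 - s.t; omega)).symm
    · have h3 : toSt T ⟨(raw s i).1, [0], s.t + 1⟩ =
          ⟨(raw s i).1, (raw s i).2, T - 1 - s.t⟩ := by
        unfold toSt
        rw [if_neg h2, h]
        simp only [St.mk.injEq, true_and]
        omega
      rw [h3]
  · have h1 : event s i = ⟨(raw s i).1, (raw s i).2, s.t⟩ := by
      unfold event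
      rw [if_neg h]
    rw [h1]
    have h3 : toSt T ⟨(raw s i).1, (raw s i).2, s.t⟩ =
        ⟨(raw s i).1, (raw s i).2, T - 1 - s.t⟩ := by
      unfold toSt
      rw [if_pos hT]
    rw [h3]

theorem inner_eq (hK : S_KCH) (hA : C_ABEL) (ν : PMF ℕ) (G : Finset V → Prop) (T : ℕ) (s : State)
    (hI : Inv s) (hT : s.t < T) (u : ℝ) :
    ∫⁻ l, Phi ν G (toSt T (event s (l, u))) ∂(kids ν).toMeasure = Phi ν G (toSt T s) := by
  have h1 : ∀ l : List Dir, Phi ν G (toSt T (event s (l, u))) =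
      Phi ν G ⟨(arrive (who s (l, u)) l (s.A, s.L.eraseIdx (pick s.L u))).1,
        (arrive (who s (l, u)) l (s.A, s.L.eraseIdx (pick s.L u))).2, T - 1 - s.t⟩ :=
    fun l => phi_event hA ν G T s hT (l, u)
  have h2 : ∀ l : List Dir, Phi ν G (toSt T (event s (l, u))) =
      Phi ν G ⟨(arrive (s.L.getD (pick s.L u) 0) l (s.A, s.L.eraseIdx (pick s.L u))).1,
        (arrive (s.L.getD (pick s.L u) 0) l (s.A, s.L.eraseIdx (pick s.L u))).2, T - 1 - s.t⟩ :=
    fun l => h1 l
  rw [lintegral_congr h2, hK ν (s.L.getD (pick s.L u) 0) s.A (s.L.eraseIdx (pick s.L u))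
    (T - 1 - s.t) (Phi ν G), ← (hA ν G).2.1]
  refine (hA ν G).1 _ _ ?_
  have hlt := pick_lt s.L hI.1 u
  have h3 : toSt T s = ⟨s.A, s.L, T - 1 - s.t⟩ := by
    unfold toSt
    rw [if_pos hT]
  rw [h3]
  refine ⟨rfl, ?_, rfl⟩
  show ((s.L.getD (pick s.L u) 0) :: s.L.eraseIdx (pick s.L u)).Perm s.L
  rw [List.getD_eq_getElem _ _ hlt]
  exact List.getElem_cons_eraseIdx_perm hlt

theorem t_HRM : Pool.Agent.K1H2.UB.S_HRM := by
  intro hK hA ν G T s hI hT
  unfold Pool.Agent.K1H2.BI.law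
  rw [← lintegral_prod_swap]
  refine (lintegral_prod_le _).trans ?_
  have h1 : ∀ u : ℝ, ∫⁻ l : List Dir, Phi ν G (toSt T (event s ((u, l) : ℝ × List Dir).swap))
      ∂(kids ν).toMeasure = Phi ν G (toSt T s) := fun u => inner_eq hK hA ν G T s hI hT u
  rw [lintegral_congr h1, lintegral_const]
  simp

end Pool.Agent.K1H72.UB
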